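import Mathlib

/-!
# Weighted sums of squares of generalized central trinomial coefficients modulo `p²`

Write `β = b - 2c`, `γ = b + 2c`, `a_n = T_n(b, c²) = ∑_k C(n,k) β^(n-k) c^k C(2k,k)` and
`e_n = ∑_k C(n,k) β^(n-k) c^k (C(2k+2,k+1) - 4 C(2k,k))`. Then `a_{n+1} = γ a_n + c e_n` and

`2b ∑_{j<n} (8cj+4c+b) a_j² β^(2(n-1-j)) = b c n² e_{n-1}² + 2 γ n a_n a_{n-1}`.

For `n = p` this is `2 γ p a_p a_{p-1}` modulo `p²`, with `a_p ≡ b` and `a_{p-1} ≡ ((βγ)/p)` modulo `p`.
-/

set_option autoImplicit false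

namespace Pool.Agent.Results.MP_bba144_nt.PrimeCongruence

open Finset Polynomial

/-- `T_m(b,c)`: the coefficient of `x^m` in `(x² + b x + c)^m`. -/
noncomputable def T (b c : ℤ) (m : ℕ) : ℤ := ((X ^ 2 + C b * X + C c) ^ m : ℤ[X]).coeff m

section general

variable {R : Type*} [CommRing R] (β c : R)

/-- shift of a sequence -/
def sh (F : ℕ → R) : ℕ → R := fun k => F (k + 1)

/-- multiplication by the index -/
def th (F : ℕ → R) : ℕ → R := fun k => (k : R) * F k

/-- central binomial coefficients -/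
def cb (k : ℕ) : R := (Nat.centralBinom k : R)

/-- `A_j(F) = ∑_k C(j,k) β^{j-k} c^k F_k` -/
def A (j : ℕ) (F : ℕ → R) : R := ∑ k ∈ range (j + 1), (j.choose k : R) * β ^ (j - k) * c ^ k * F k

lemma A_zero (F : ℕ → R) : A β c 0 F = F 0 := by simp [A]

lemma A_succ (j : ℕ) (F : ℕ → R) : A β c (j + 1) F = β * A β c j F + c * A β c j (sh F) := by
  unfold A
  have e1 : β * ∑ k ∈ range (j + 1), (j.choose k : R) * β ^ (j - k) * c ^ k * F k
      = ∑ k ∈ range (j + 1 + 1), (j.choose k : R) * β ^ (j + 1 - k) * c ^ k * F k := by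
    rw [sum_range_succ _ (j + 1), Nat.choose_eq_zero_of_lt (Nat.lt_succ_self j), mul_sum]
    simp only [Nat.cast_zero, zero_mul, add_zero]
    apply sum_congr rfl
    intro k hk
    have hk' : k ≤ j := by have := mem_range.mp hk; omega
    rw [show j + 1 - k = j - k + 1 by omega, pow_succ]
    ring
  rw [e1, sum_range_succ' _ (j + 1), sum_range_succ' _ (j + 1), mul_sum]
  simp only [Nat.choose_zero_right, sh]
  rw [add_right_comm, ← sum_add_distrib]
  congr 1
  apply sum_congr rfl
  intro k hk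
  rw [Nat.choose_succ_succ, show j + 1 - (k + 1) = j - k by omega, pow_succ]
  push_cast
  ring

lemma A_lin (x y : R) (j : ℕ) (F G : ℕ → R) :
    A β c j (fun k => x * F k + y * G k) = x * A β c j F + y * A β c j G := by
  unfold A
  rw [mul_sum, mul_sum, ← sum_add_distrib]
  refine sum_congr rfl fun k _ => ?_
  ring

/-- the Euler operator -/
lemma A_th (j : ℕ) : ∀ F : ℕ → R, A β c (j + 1) (th F)
    = ((j : R) + 1) * (c * A β c j (sh F)) := by
  induction j with
  | zero =>
    intro F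
    rw [A_succ, A_zero, A_zero, A_zero]
    simp [sh, th]
  | succ j ih =>
    intro F
    have e : sh (th F) = fun k => (1 : R) * th (sh F) k + 1 * sh F k := by
      funext k
      simp only [sh, th]
      push_cast
      ring
    rw [A_succ, e, A_lin, ih, ih, A_succ β c j (sh F)]
    push_cast
    ring

lemma cb_rec (k : ℕ) : ((k : R) + 1) * cb (k + 1) = 2 * (2 * (k : R) + 1) * cb k := by
  have h := Nat.succ_mul_centralBinom_succ k
  have h' := congrArg (fun z : ℕ => (z : R)) h
  push_cast at h'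
  exact h'

/-- `a_n` -/
def a (n : ℕ) : R := A β c n cb

/-- `s_n` -/
def s (n : ℕ) : R := A β c n (sh cb)

/-- `e_n` -/
def e (n : ℕ) : R := s β c n - 4 * a β c n

lemma a_succ (n : ℕ) : a β c (n + 1) = β * a β c n + c * s β c n := A_succ β c n cb

lemma a_succ' (n : ℕ) : a β c (n + 1) = (β + 4 * c) * a β c n + c * e β c n := by
  rw [a_succ, e]
  ring

lemma s_succ (n : ℕ) : ((n : R) + 2) * s β c (n + 1)
    = ((n : R) + 1) * (β + 4 * c) * s β c n + 2 * a β c (n + 1) := by
  have h1 := A_th β c n (sh cb)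
  have h2 := A_th β c n (cb : ℕ → R)
  have h3 : th (sh (cb : ℕ → R))
      = fun k => (1 : R) * (fun k => (4 : R) * th cb k + 2 * cb k) k
        + (-1) * sh (cb : ℕ → R) k := by
    funext k
    have h := cb_rec (R := R) k
    simp only [sh, th]
    linear_combination h
  rw [h3, A_lin, A_lin, h2] at h1
  have h4 := A_succ β c n (sh (cb : ℕ → R))
  unfold s a
  linear_combination ((n : R) + 1) * h4 - h1

lemma e_succ (n : ℕ) : ((n : R) + 2) * e β c (n + 1)
    = ((n : R) + 1) * (β + 4 * c) * e β c n + 4 * ((n : R) + 1) * (β + 4 * c) * a β c n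
      - (4 * n + 6) * a β c (n + 1) := by
  unfold e
  linear_combination s_succ β c n

/-- the weighted sum of squares -/
def S : ℕ → R
  | 0 => 0
  | n + 1 => β ^ 2 * S n + (8 * c * n + 6 * c + β) * a β c n ^ 2

/-- the closed form -/
theorem closed (n : ℕ) : 2 * (β + 2 * c) * S β c (n + 1)
    = (β + 2 * c) * c * (((n : R) + 1) * e β c n) ^ 2
      + 2 * (β + 4 * c) * (((n : R) + 1) * a β c (n + 1)) * a β c n := by
  induction n with
  | zero =>
    simp [S, e, s, a, A, sh, cb, sum_range_succ, Nat.centralBinom]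
    ring
  | succ n ih =>
    have h1 := e_succ β c n
    have h2 := a_succ' β c n
    have h3 := a_succ' β c (n + 1)
    rw [S]
    push_cast
    have e1 : ((n : R) + 1 + 1) * e β c (n + 1) = ((n : R) + 1) * (β + 4 * c) * e β c n
        + 4 * ((n : R) + 1) * (β + 4 * c) * a β c n - (4 * n + 6) * a β c (n + 1) := by
      linear_combination h1
    have e2 : ((n : R) + 1 + 1) * a β c (n + 1 + 1) = (β + 4 * c) * ((n : R) + 2) * a β c (n + 1)
        + c * (((n : R) + 1) * (β + 4 * c) * e β c n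
        + 4 * ((n : R) + 1) * (β + 4 * c) * a β c n - (4 * n + 6) * a β c (n + 1)) := by
      rw [h3]
      linear_combination c * h1
    rw [e1, e2]
    have ih' : 2 * (β + 2 * c) * (β ^ 2 * S β c (n + 1)
        + (8 * c * ((n : R) + 1) + 6 * c + β) * a β c (n + 1) ^ 2)
        = β ^ 2 * ((β + 2 * c) * c * (((n : R) + 1) * e β c n) ^ 2
      + 2 * (β + 4 * c) * (((n : R) + 1) * a β c (n + 1)) * a β c n)
        + 2 * (β + 2 * c) * (8 * c * ((n : R) + 1) + 6 * c + β) * a β c (n + 1) ^ 2 := by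
      linear_combination β ^ 2 * ih
    rw [ih', h2]
    ring

lemma S_eq (n : ℕ) : S β c n = ∑ j ∈ range n, (8 * c * j + 6 * c + β) * a β c j ^ 2
    * β ^ (2 * (n - 1 - j)) := by
  induction n with
  | zero => simp [S]
  | succ n ih =>
    rw [S, ih, sum_range_succ, mul_sum]
    congr 1
    · refine sum_congr rfl fun j hj => ?_
      have := mem_range.1 hj
      rw [show 2 * (n + 1 - 1 - j) = 2 * (n - 1 - j) + 2 by omega, pow_add]
      ring
    · simp

end general

lemma T_eq (b c : ℤ) (m : ℕ) : T b (c ^ 2) m = a (b - 2 * c) c m := by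
  have e1 : (X ^ 2 + C b * X + C (c ^ 2) : ℤ[X]) = (X + C c) ^ 2 + C (b - 2 * c) * X := by
    simp only [map_sub, map_mul, map_pow]
    rw [show (C (2 : ℤ) : ℤ[X]) = 2 from rfl]
    ring
  unfold T a A
  rw [e1, add_pow, finsetSum_coeff]
  apply sum_congr rfl
  intro k hk
  have hk' : k ≤ m := by have := mem_range.mp hk; omega
  have e2 : ((X + C c : ℤ[X]) ^ 2) ^ k * (C (b - 2 * c) * X) ^ (m - k) * ((m.choose k : ℕ) : ℤ[X])
      = C ((b - 2 * c) ^ (m - k) * (m.choose k : ℤ)) * ((X + C c) ^ (2 * k) * X ^ (m - k)) := by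
    rw [mul_pow, ← pow_mul]
    simp only [map_mul, map_pow, map_natCast]
    ring
  rw [e2, coeff_C_mul, coeff_mul_X_pow', if_pos (by omega), coeff_X_add_C_pow,
    show m - (m - k) = k by omega, show 2 * k - k = k by omega]
  simp only [cb, Nat.centralBinom]
  ring

section prime

variable {p : ℕ} [hp : Fact p.Prime]

lemma cb_mod (m : ℕ) (hm : p = 2 * m + 1) (k : ℕ) (hk : k < p) :
    (cb k : ZMod p) = (-4) ^ k * (m.choose k : ZMod p) := by
  induction k with
  | zero => simp [cb]
  | succ k ih =>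
    have h1 := ih (by omega)
    have h2 := cb_rec (R := ZMod p) k
    have h3 : ((k : ZMod p) + 1) ≠ 0 := by
      intro h
      have h4 : ((k + 1 : ℕ) : ZMod p) = 0 := by push_cast; exact h
      rw [ZMod.natCast_eq_zero_iff] at h4
      have := Nat.le_of_dvd (by omega) h4
      omega
    apply mul_left_cancel₀ h3
    rw [h2, h1]
    have h5 : ((k : ZMod p) + 1) * ((m.choose (k + 1) : ℕ) : ZMod p)
        = ((m : ZMod p) - k) * (m.choose k : ZMod p) := by
      rcases Nat.lt_or_ge m k with h | h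
      · rw [Nat.choose_eq_zero_of_lt h, Nat.choose_eq_zero_of_lt (by omega)]
        simp
      · have h6 := Nat.choose_succ_right_eq m k
        have h7 : ((m.choose (k + 1) * (k + 1) : ℕ) : ZMod p)
            = ((m.choose k * (m - k) : ℕ) : ZMod p) := by rw [h6]
        push_cast [h] at h7
        linear_combination h7
    have h8 : (2 * (m : ZMod p) + 1) = 0 := by
      have : ((2 * m + 1 : ℕ) : ZMod p) = 0 := by rw [← hm]; simp
      push_cast at this
      exact this
    rw [pow_succ]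
    linear_combination (4 * (-4) ^ k) * h5 + (2 * (-4) ^ k * (m.choose k : ZMod p)) * h8

lemma a_pred (β c : ZMod p) (m : ℕ) (hm : p = 2 * m + 1) :
    a β c (p - 1) = (β * (β + 4 * c)) ^ m := by
  have hp0 := hp.out.pos
  unfold a A
  rw [show p - 1 + 1 = p by omega]
  have h1 : ∀ k ∈ range p, ((p - 1).choose k : ZMod p) * β ^ (p - 1 - k) * c ^ k * cb k
      = β ^ (p - 1 - k) * (4 * c) ^ k * (m.choose k : ZMod p) := by
    intro k hk
    have hk' := mem_range.1 hk
    rw [cb_mod m hm k hk']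
    have h2 : ((p - 1).choose k : ZMod p) = (-1) ^ k := by
      have h4 : ∀ k, k < p → ((p - 1).choose k : ZMod p) = (-1) ^ k := by
        intro k
        induction k with
        | zero => intro _; simp
        | succ k ih =>
          intro hk
          have h5 := ih (by omega)
          have h6 : p.choose (k + 1) = (p - 1).choose k + (p - 1).choose (k + 1) := by
            conv_lhs => rw [show p = p - 1 + 1 by omega]
            rw [Nat.choose_succ_succ]
          have h7 : ((p.choose (k + 1) : ℕ) : ZMod p) = 0 := by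
            rw [ZMod.natCast_eq_zero_iff]
            exact hp.out.dvd_choose_self (by omega) hk
          rw [h6] at h7
          push_cast at h7
          rw [h5] at h7
          rw [pow_succ]
          linear_combination h7
      exact h4 k hk'
    rw [h2, mul_pow, show ((-4 : ZMod p)) ^ k = (-1) ^ k * 4 ^ k by rw [← mul_pow]; norm_num]
    have h8 : ((-1 : ZMod p) ^ k) * (-1) ^ k = 1 := by rw [← mul_pow]; simp
    linear_combination (β ^ (p - 1 - k) * c ^ k * (4 ^ k * (m.choose k : ZMod p))) * h8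
  rw [sum_congr rfl h1]
  have h9 : ∑ k ∈ range p, β ^ (p - 1 - k) * (4 * c) ^ k * (m.choose k : ZMod p)
      = ∑ k ∈ range (m + 1), β ^ (p - 1 - k) * (4 * c) ^ k * (m.choose k : ZMod p) := by
    symm
    apply sum_subset (Finset.range_subset_range.mpr (by omega))
    intro k _ hk
    rw [Nat.choose_eq_zero_of_lt (by simpa using hk)]
    simp
  rw [h9, mul_pow, add_comm β (4 * c), add_pow, mul_sum]
  refine sum_congr rfl fun k hk => ?_
  have hk' := mem_range.1 hk
  rw [show p - 1 - k = m + (m - k) by omega, pow_add]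
  ring

lemma a_self (β c : ZMod p) : a β c p = β + 2 * c := by
  have hp0 := hp.out.pos
  unfold a A
  rw [sum_range_succ]
  have h1 : ∑ k ∈ range p, (p.choose k : ZMod p) * β ^ (p - k) * c ^ k * cb k = β := by
    obtain ⟨n, hn⟩ : ∃ n, p = n + 1 := ⟨p - 1, by omega⟩
    have hr : range p = range (n + 1) := by rw [hn]
    rw [hr, sum_range_succ']
    have h2 : ∑ k ∈ range n, (p.choose (k + 1) : ZMod p) * β ^ (p - (k + 1)) * c ^ (k + 1) * cb (k + 1)
        = 0 := by
      apply sum_eq_zero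
      intro k hk
      have hk' := mem_range.1 hk
      have : ((p.choose (k + 1) : ℕ) : ZMod p) = 0 := by
        rw [ZMod.natCast_eq_zero_iff]
        exact hp.out.dvd_choose_self (by omega) (by omega)
      rw [this]
      simp
    rw [h2]
    simp [cb, ZMod.pow_card]
  rw [h1]
  have h3 : (cb p : ZMod p) = 2 := by
    have h4 := Nat.centralBinom_eq_two_mul_choose p
    unfold cb
    rw [h4]
    have h5 := Choose.choose_modEq_choose_mod_mul_choose_div_nat (n := 2 * p) (k := p) (p := p)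
    have h6 : 2 * p % p = 0 := by simp
    have h7 : 2 * p / p = 2 := Nat.mul_div_cancel _ hp0
    rw [h6, h7, Nat.mod_self, Nat.div_self hp0] at h5
    simp at h5
    have h8 := (ZMod.natCast_eq_natCast_iff _ _ _).2 h5
    rw [h8]
    norm_num
  rw [h3]
  simp [ZMod.pow_card]
  ring

end prime

lemma a_cast (β c : ℤ) (n p : ℕ) : ((a β c n : ℤ) : ZMod p) = a (β : ZMod p) (c : ZMod p) n := by
  unfold a A cb
  push_cast
  rfl

/-- `x ≡ y (mod p²)` in the ring of rational numbers with denominator prime to `p`. -/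
def CongSq (p : ℕ) (x y : ℚ) : Prop := ∃ r : ℚ, ¬ p ∣ r.den ∧ x - y = (p : ℚ) ^ 2 * r

/-- **Q2 is true.** -/
theorem result (b c : ℤ) (p : ℕ) [Fact p.Prime] (h2 : p ≠ 2) (hb : ¬ (p : ℤ) ∣ b * (b - 2 * c)) :
    CongSq p (∑ j ∈ range p, ((8 * c * j + 4 * c + b : ℤ) : ℚ) * (T b (c ^ 2) j : ℚ) ^ 2
        / ((b - 2 * c : ℤ) : ℚ) ^ (2 * j))
      (p * (b + 2 * c) * legendreSym p (b ^ 2 - 4 * c ^ 2)) := by
  have hp : p.Prime := Fact.out
  have hpp := Nat.prime_iff_prime_int.1 hp
  set β : ℤ := b - 2 * c with hβ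
  have hb1 : ¬ (p : ℤ) ∣ b := fun h => hb (h.mul_right _)
  have hb2 : ¬ (p : ℤ) ∣ β := fun h => hb (h.mul_left _)
  have hβ0 : β ≠ 0 := by rintro h; rw [h] at hb2; exact hb2 (dvd_zero _)
  obtain ⟨m, hm⟩ : ∃ m, p = 2 * m + 1 := by
    rcases hp.eq_two_or_odd with h | h
    · exact absurd h h2
    · exact ⟨p / 2, by omega⟩
  have hbb : b = β + 2 * c := by rw [hβ]; ring
  -- the integral sum
  have hcl := closed β c (p - 1)
  have hp1 : p - 1 + 1 = p := by have := hp.pos; omega
  rw [hp1] at hcl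
  have hcast : (((p - 1 : ℕ) : ℤ) + 1) = p := by
    have := hp.pos
    push_cast [this]
    ring
  rw [hcast, ← hbb] at hcl
  -- congruences modulo p
  have m1 : (p : ℤ) ∣ a β c p - b := by
    rw [← ZMod.intCast_zmod_eq_zero_iff_dvd]
    push_cast
    rw [a_cast, a_self, hbb]
    push_cast
    ring
  have m2 : (p : ℤ) ∣ a β c (p - 1) - legendreSym p (b ^ 2 - 4 * c ^ 2) := by
    rw [← ZMod.intCast_zmod_eq_zero_iff_dvd]
    push_cast
    rw [a_cast, a_pred (β : ZMod p) (c : ZMod p) m hm, legendreSym.eq_pow]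
    have : p / 2 = m := by omega
    rw [this, hbb]
    push_cast
    ring
  obtain ⟨u, hu⟩ := m1
  obtain ⟨v, hv⟩ := m2
  set ℓ : ℤ := legendreSym p (b ^ 2 - 4 * c ^ 2) with hℓ
  have m3 : (p : ℤ) ∣ β ^ (2 * (p - 1)) - 1 := by
    have h1 : (p : ℤ) ∣ β ^ (p - 1) - 1 := by
      rw [← ZMod.intCast_zmod_eq_zero_iff_dvd]
      push_cast
      rw [ZMod.pow_card_sub_one_eq_one, sub_self]
      intro h
      exact hb2 ((ZMod.intCast_zmod_eq_zero_iff_dvd _ _).1 h)
    have e : β ^ (2 * (p - 1)) - 1 = (β ^ (p - 1) - 1) * (β ^ (p - 1) + 1) := by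
      rw [mul_comm 2 (p - 1), pow_mul]; ring
    rw [e]
    exact h1.mul_right _
  obtain ⟨w, hw⟩ := m3
  -- conclusion for the integral sum
  have hS : (p : ℤ) ^ 2 ∣ S β c p - p * (b + 2 * c) * ℓ := by
    have h1 : (p : ℤ) ^ 2 ∣ (2 * b) * (S β c p - p * (b + 2 * c) * ℓ) := by
      have e1 : a β c p = b + p * u := by linear_combination hu
      have e2 : a β c (p - 1) = ℓ + p * v := by linear_combination hv
      have e3 : β + 4 * c = b + 2 * c := by rw [hbb]; ring
      rw [e1, e2, e3] at hcl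
      refine ⟨b * c * e β c (p - 1) ^ 2 + 2 * (b + 2 * c) * (b * v + u * ℓ + p * u * v), ?_⟩
      linear_combination hcl
    have h3 : IsCoprime ((p : ℤ) ^ 2) (2 * b) := by
      apply IsCoprime.pow_left
      apply (Prime.coprime_iff_not_dvd hpp).2
      intro h
      rcases hpp.dvd_or_dvd h with h | h
      · have h4 : p ∣ 2 := by exact_mod_cast h
        exact h2 ((Nat.prime_dvd_prime_iff_eq hp Nat.prime_two).1 h4)
      · exact hb1 h
    exact h3.dvd_of_dvd_mul_left h1
  obtain ⟨z, hz⟩ := hS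
  -- the rational sum
  have hβq : (β : ℚ) ≠ 0 := by exact_mod_cast hβ0
  have hsum : (∑ j ∈ range p, ((8 * c * j + 4 * c + b : ℤ) : ℚ) * (T b (c ^ 2) j : ℚ) ^ 2
        / (β : ℚ) ^ (2 * j)) * (β : ℚ) ^ (2 * (p - 1)) = (S β c p : ℤ) := by
    rw [S_eq, sum_mul]
    push_cast
    refine sum_congr rfl fun j hj => ?_
    have hj' := mem_range.1 hj
    rw [T_eq, ← hβ, show 2 * (p - 1) = 2 * (p - 1 - j) + 2 * j by omega, pow_add, hbb]
    push_cast
    field_simp
    ring
  have hpow : (β : ℚ) ^ (2 * (p - 1)) ≠ 0 := pow_ne_zero _ hβq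
  refine ⟨((z - w * (b + 2 * c) * ℓ : ℤ) : ℚ) / ((β ^ (2 * (p - 1)) : ℤ) : ℚ), ?_, ?_⟩
  · intro hd
    have h1 : (((((z - w * (b + 2 * c) * ℓ : ℤ) : ℚ) / ((β ^ (2 * (p - 1)) : ℤ) : ℚ)).den : ℤ))
        ∣ β ^ (2 * (p - 1)) := by
      rw [← Rat.divInt_eq_div]
      exact Rat.den_dvd _ _
    have h3 : (p : ℤ) ∣ β ^ (2 * (p - 1)) := (Int.natCast_dvd_natCast.2 hd).trans h1
    exact hb2 (hpp.dvd_of_dvd_pow h3)
  · have hw' : (β : ℚ) ^ (2 * (p - 1)) = 1 + p * w := by
      have : ((β ^ (2 * (p - 1)) : ℤ) : ℚ) = ((1 + p * w : ℤ) : ℚ) := by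
        congr 1
        linear_combination hw
      push_cast at this
      exact this
    have hz' : ((S β c p : ℤ) : ℚ) = p * (b + 2 * c) * ℓ + (p : ℚ) ^ 2 * z := by
      have : ((S β c p : ℤ) : ℚ) = ((p * (b + 2 * c) * ℓ + (p : ℤ) ^ 2 * z : ℤ) : ℚ) := by
        congr 1
        linear_combination hz
      rw [this]
      push_cast
      ring
    rw [hz'] at hsum
    apply mul_right_cancel₀ hpow
    rw [sub_mul, hsum]
    push_cast
    field_simp
    rw [hw']
    ring

end Pool.Agent.Results.MP_bba144_nt.PrimeCongruence
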